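import Pool.Agent.H15.G.R_seed8.TH545.SD.Dg

/-! From one configuration of points of expected dimension to the combinatorial property. -/

set_option autoImplicit false

namespace Pool.Agent.TH545.SD

open Finset Pool.Agent.TH176.Nag Pool.Agent.TH603.Sur Pool.Agent.TH641.UM Pool.Agent.TH2.NU
open Pool.Agent.H932R3 (ExpDim)

theorem emp_sur_at {K : Type} [Field K] [CharZero K] {n : ℕ} {w : Fin n → ℕ} {d : ℕ}
    {P : Fin n → Fin 2 → K} (hP0 : ∀ i j, P i j ≠ 0) (h1 : ExpDim K w P d) :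
    ((d + 2).choose 2 ≤ cond w → Emp w (TZ d)) ∧ (cond w ≤ (d + 2).choose 2 → Sur w (TZ d)) := by
  have h2 := finrank_VS_le hP0 h1
  have h3 := Pool.Agent.TH772.QB.Emp_of_finrank (fun i => hP0 i 0) (fun i => hP0 i 1) (TZ_finite d) h2
  refine ⟨fun hle => ?_, fun hle => Pool.Agent.TH641.UM.Sur_of_ones h3 (by omega)⟩
  obtain ⟨K, _, _, x, y, hx, hy, hf⟩ := h3
  refine ⟨K, inferInstance, inferInstance, fun i => x (Sum.inl i), fun i => y (Sum.inl i),
    fun i => hx _, fun i => hy _, fun f hfS hfL => hf f hfS ?_⟩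
  rintro (i | j)
  · exact hfL i
  · have := j.2
    omega

theorem GD_of_open {K : Type} [Field K] [CharZero K] {n : ℕ} {w : Fin n → ℕ} {d : ℕ}
    (h : ∃ F : MvPolynomial (Fin n × Fin 2) K, F ≠ 0 ∧ ∀ (P : Fin n → Fin 2 → K),
      MvPolynomial.eval (fun ij : Fin n × Fin 2 => P ij.1 ij.2) F ≠ 0 → ExpDim K w P d) :
    GD d (ms w) := by
  apply GD_of
  obtain ⟨F, hF, hF'⟩ := h
  have hG : F * ∏ q : Fin n × Fin 2, (MvPolynomial.X q : MvPolynomial (Fin n × Fin 2) K) ≠ 0 :=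
    mul_ne_zero hF (Finset.prod_ne_zero_iff.2 fun q _ => MvPolynomial.X_ne_zero q)
  obtain ⟨v, hv⟩ : ∃ v : Fin n × Fin 2 → K, MvPolynomial.eval v
      (F * ∏ q : Fin n × Fin 2, (MvPolynomial.X q : MvPolynomial (Fin n × Fin 2) K)) ≠ 0 := by
    by_contra hcon
    push Not at hcon
    exact hG (MvPolynomial.funext fun v => by rw [hcon v, map_zero])
  rw [map_mul, map_prod] at hv
  have hv1 := left_ne_zero_of_mul hv
  have hv2 := right_ne_zero_of_mul hv
  rw [Finset.prod_ne_zero_iff] at hv2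
  obtain ⟨P, hPdef⟩ : ∃ P : Fin n → Fin 2 → K, ∀ i j, P i j = v (i, j) :=
    ⟨fun i j => v (i, j), fun _ _ => rfl⟩
  have hP0 : ∀ i j, P i j ≠ 0 := by
    intro i j
    rw [hPdef]
    simpa using hv2 (i, j) (mem_univ _)
  have hPv : (fun ij : Fin n × Fin 2 => P ij.1 ij.2) = v := funext fun ij => hPdef _ _
  exact emp_sur_at hP0 (hF' P (by rw [hPv]; exact hv1))

theorem ms_map {n : ℕ} (w : Fin n → ℕ) : Multiset.map w Finset.univ.val = ms w := by
  unfold ms
  rw [Finset.sum_eq_multiset_sum]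
  rw [← Multiset.sum_map_singleton (Multiset.map w Finset.univ.val), Multiset.map_map]
  rfl

end Pool.Agent.TH545.SD
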