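import Pool.Agent.H15.G.R_seed8.TH603.Sur.Forms
import Pool.Agent.H15.G.R_seed8.TH641.UM.Ones
import Pool.Agent.H15.G.R_seed8.TH772.QB.Conv

/-! From the expected dimension at general points back to emptiness and independence. -/

set_option autoImplicit false

namespace Pool.Agent.TH545.SD

open Polynomial Finset Pool.Agent.H932R2 Pool.Agent.H932R3 Pool.Agent.TH603.Sur
open Pool.Agent.TH176.Nag (Emp LM pr PF PF_desc2)

section conv
variable {K : Type} [Field K]

theorem coeff_sh_mon (x y : K) (a b i l : ℕ) :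
    ((sh x (C y) (mon K (a, b))).coeff l).coeff i =
      (x ^ (a - i) * (a.choose i : K)) * (y ^ (b - l) * (b.choose l : K)) := by
  have h1 : sh x (C y) (mon K (a, b)) = C ((X + C x) ^ a) * (X + C (C y)) ^ b := by
    unfold mon
    rw [map_mul (sh x (C y)), sh_C, map_pow (sh x (C y)), sh_X, X_pow_comp, C_comp]
  rw [h1, coeff_C_mul, coeff_X_add_C_pow]
  have h2 : ((C y : K[X]) ^ (b - l) * ((b.choose l : ℕ) : K[X])) =
      C (y ^ (b - l) * (b.choose l : K)) := by
    rw [C_mul, C_pow, Polynomial.C_eq_natCast]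
  rw [h2, coeff_mul_C, coeff_X_add_C_pow]

theorem prod_desc (a i : ℕ) : (∏ t ∈ range i, ((a : K) - (t : K))) = (i.factorial : K) * (a.choose i : K) := by
  rw [← descPochhammer_eval_eq_prod_range, descPochhammer_eval_eq_descFactorial,
    Nat.descFactorial_eq_factorial_mul_choose]
  push_cast
  rfl

/-- the polynomial with the given coefficients -/
noncomputable def Psi (K : Type) [Field K] : ((ℤ × ℤ) →₀ K) →ₗ[K] K[X][X] :=
  Finsupp.linearCombination K (fun u : ℤ × ℤ => mon K (u.1.toNat, u.2.toNat))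

theorem Psi_apply (f : (ℤ × ℤ) →₀ K) : Psi K f = ∑ u ∈ f.support, f u • mon K (u.1.toNat, u.2.toNat) := rfl

theorem Psi_mem_cIdeal [CharZero K] {x y : K} (hx : x ≠ 0) (hy : y ≠ 0) {f : (ℤ × ℤ) →₀ K} {w : ℕ}
    (hpos : ∀ u ∈ f.support, 0 ≤ u.1 ∧ 0 ≤ u.2) (hf : LM f x y w) :
    Psi K f ∈ cIdeal (fun _ : Fin 1 => x) (C y) w := by
  rw [mem_cIdeal_iff]
  intro l hl i hi
  have h1 := hf _ (PF_desc2 (K := K) (a := i) (b := l) (w := w) (by omega))
  unfold pr Finsupp.sum at h1
  have h2 : ((sh x (C y) (Psi K f)).coeff l).coeff i =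
      ∑ u ∈ f.support, f u * ((x ^ (u.1.toNat - i) * (u.1.toNat.choose i : K)) *
        (y ^ (u.2.toNat - l) * (u.2.toNat.choose l : K))) := by
    rw [Psi_apply, map_sum, finsetSum_coeff, finsetSum_coeff]
    refine sum_congr rfl fun u _ => ?_
    have h3 : sh x (C y) (f u • mon K (u.1.toNat, u.2.toNat)) =
        C (C (f u)) * sh x (C y) (mon K (u.1.toNat, u.2.toNat)) := by
      have h4 : f u • mon K (u.1.toNat, u.2.toNat) = C (C (f u)) * mon K (u.1.toNat, u.2.toNat) := by
        rw [Algebra.smul_def, Polynomial.algebraMap_apply, Polynomial.algebraMap_eq]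
      rw [h4, map_mul, sh_C, C_comp]
    rw [h3, coeff_C_mul, coeff_C_mul, coeff_sh_mon]
  rw [h2]
  have h5 : ((i.factorial : K) * (l.factorial : K) * (x ^ i * y ^ l)) *
      (∑ u ∈ f.support, f u * ((x ^ (u.1.toNat - i) * (u.1.toNat.choose i : K)) *
        (y ^ (u.2.toNat - l) * (u.2.toNat.choose l : K)))) = 0 := by
    rw [← h1, mul_sum]
    refine sum_congr rfl fun u hu => ?_
    obtain ⟨p1, p2⟩ := hpos u hu
    rcases u with ⟨u1, u2⟩
    simp only at p1 p2
    lift u1 to ℕ using p1 with a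
    lift u2 to ℕ using p2 with b
    simp only [Int.toNat_natCast, Int.cast_natCast, zpow_natCast]
    rw [prod_desc, prod_desc]
    have e1 : x ^ i * (x ^ (a - i) * (a.choose i : K)) = x ^ a * (a.choose i : K) := by
      rcases le_or_gt i a with h | h
      · rw [← mul_assoc, ← pow_add, Nat.add_sub_cancel' h]
      · rw [Nat.choose_eq_zero_of_lt h]; simp
    have e2 : y ^ l * (y ^ (b - l) * (b.choose l : K)) = y ^ b * (b.choose l : K) := by
      rcases le_or_gt l b with h | h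
      · rw [← mul_assoc, ← pow_add, Nat.add_sub_cancel' h]
      · rw [Nat.choose_eq_zero_of_lt h]; simp
    calc (i.factorial : K) * (l.factorial : K) * (x ^ i * y ^ l) *
          (f ((a : ℤ), (b : ℤ)) * ((x ^ (a - i) * (a.choose i : K)) * (y ^ (b - l) * (b.choose l : K)))) =
        (i.factorial : K) * (l.factorial : K) * f ((a : ℤ), (b : ℤ)) *
          ((x ^ i * (x ^ (a - i) * (a.choose i : K))) * (y ^ l * (y ^ (b - l) * (b.choose l : K)))) := by
          ring
      _ = _ := by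
          rw [e1, e2]
          ring
  rcases mul_eq_zero.1 h5 with h6 | h6
  · exfalso
    have h7 : (i.factorial : K) ≠ 0 := Nat.cast_ne_zero.2 (Nat.factorial_ne_zero i)
    have h8 : (l.factorial : K) ≠ 0 := Nat.cast_ne_zero.2 (Nat.factorial_ne_zero l)
    exact (mul_ne_zero (mul_ne_zero h7 h8) (mul_ne_zero (pow_ne_zero _ hx) (pow_ne_zero _ hy))) h6
  · exact h6

theorem coeff_mon (p : ℕ × ℕ) (i l : ℕ) :
    ((mon K p).coeff l).coeff i = if p = (i, l) then 1 else 0 := by
  unfold mon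
  rw [coeff_C_mul, coeff_X_pow]
  by_cases h1 : l = p.2
  · rw [if_pos h1, mul_one, coeff_X_pow]
    by_cases h2 : i = p.1
    · rw [if_pos h2, if_pos (by rw [h1, h2])]
    · rw [if_neg h2, if_neg (fun h => h2 (by rw [h]))]
  · rw [if_neg h1, mul_zero, coeff_zero, if_neg (fun h => h1 (by rw [h]))]

theorem Psi_injOn {f : (ℤ × ℤ) →₀ K} (hpos : ∀ u ∈ f.support, 0 ≤ u.1 ∧ 0 ≤ u.2)
    (h : Psi K f = 0) : f = 0 := by
  ext u
  rw [Finsupp.coe_zero, Pi.zero_apply]
  by_contra hu
  have hu' : u ∈ f.support := Finsupp.mem_support_iff.2 hu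
  have h1 : ((Psi K f).coeff u.2.toNat).coeff u.1.toNat = f u := by
    rw [Psi_apply, finsetSum_coeff, finsetSum_coeff, Finset.sum_eq_single u]
    · rw [coeff_smul, coeff_smul, coeff_mon, if_pos rfl, smul_eq_mul, mul_one]
    · intro v hv hne
      rw [coeff_smul, coeff_smul, coeff_mon, if_neg, smul_zero]
      intro h2
      apply hne
      obtain ⟨p1, p2⟩ := hpos u hu'
      obtain ⟨q1, q2⟩ := hpos v hv
      simp only [Prod.mk.injEq] at h2
      ext
      · omega
      · omega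
    · intro h2
      exact absurd hu' h2
  rw [h, coeff_zero, coeff_zero] at h1
  exact hu h1.symm

/-- the dimension of the space of Laurent polynomials is at most the dimension of the forms -/
theorem finrank_VS_le [CharZero K] {n : ℕ} {w : Fin n → ℕ} {P : Fin n → Fin 2 → K} {d : ℕ}
    (hP : ∀ i j, P i j ≠ 0) (h : ExpDim K w P d) :
    Module.finrank K (Pool.Agent.TH772.QB.VS (fun i => P i 0) (fun i => P i 1) w (TZ d)) ≤
      (d + 2).choose 2 - cond w := by
  obtain ⟨J, hJ⟩ : ∃ J : Submodule K K[X][X], J = Submodule.restrictScalars K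
    (vIdeal 1 w (fun a => P a 0) (fun a => C (P a 1))) := ⟨_, rfl⟩
  have h1 : Module.finrank K ↥(mspan K (Tset d) ⊓ J) = (d + 2).choose 2 - cond w := by
    unfold ExpDim at h
    rw [← finrank_forms _ J fun F hF => ?_]
    · exact h
    · rw [Submodule.restrictScalars_mem, hJ, Submodule.restrictScalars_mem]
      unfold vIdeal
      rw [Ideal.mem_iInf, Ideal.mem_iInf]
      exact forall_congr' fun i => mem_ptIdeal_iff hF
  rw [← h1]
  have hfin : FiniteDimensional K ↥(mspan K (Tset d) ⊓ J) := by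
    have h2 : FiniteDimensional K ↥(mspan K (Tset d)) := by
      rw [← coe_Tfin]
      unfold mspan
      exact FiniteDimensional.span_of_finite K ((Tfin d).finite_toSet.image _)
    exact Submodule.finiteDimensional_of_le (inf_le_left : mspan K (Tset d) ⊓ J ≤ _)
  have hmem : ∀ f : (ℤ × ℤ) →₀ K,
      f ∈ Pool.Agent.TH772.QB.VS (fun i => P i 0) (fun i => P i 1) w (TZ d) →
        Psi K f ∈ mspan K (Tset d) ⊓ J := by
    intro f hf
    obtain ⟨hf1, hf2⟩ := hf
    refine ⟨?_, ?_⟩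
    · rw [Psi_apply]
      refine Submodule.sum_mem _ fun u hu => Submodule.smul_mem _ _ (Submodule.subset_span ⟨_, ?_, rfl⟩)
      obtain ⟨q1, q2, q3⟩ := hf1 (mem_coe.2 hu)
      rw [mem_Tset]
      omega
    · rw [hJ, SetLike.mem_coe, Submodule.restrictScalars_mem]
      unfold vIdeal
      rw [Ideal.mem_iInf]
      intro i
      exact Psi_mem_cIdeal (hP i 0) (hP i 1)
        (fun u hu => ⟨(hf1 (mem_coe.2 hu)).1, (hf1 (mem_coe.2 hu)).2.1⟩) (hf2 i)
  refine LinearMap.finrank_le_finrank_of_injective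
    (f := LinearMap.restrict (Psi K) hmem) ?_
  rw [injective_iff_map_eq_zero]
  intro f hf
  have h3 : Psi K f.1 = 0 := congrArg Subtype.val hf
  exact Subtype.ext (Psi_injOn (fun u hu => ⟨(f.2.1 (mem_coe.2 hu)).1, (f.2.1 (mem_coe.2 hu)).2.1⟩) h3)

end conv

/-- **From the expected dimension at general points to emptiness and independence.** -/
theorem emp_sur_of_expDim {n : ℕ} {w : Fin n → ℕ} {d : ℕ}
    (h : ∃ F : MvPolynomial (Fin n × Fin 2) ℚ, F ≠ 0 ∧ ∀ (P : Fin n → Fin 2 → ℚ),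
      MvPolynomial.aeval (fun ij : Fin n × Fin 2 => P ij.1 ij.2) F ≠ 0 → ExpDim ℚ w P d) :
    ((d + 2).choose 2 ≤ cond w → Emp w (TZ d)) ∧ (cond w ≤ (d + 2).choose 2 → Sur w (TZ d)) := by
  obtain ⟨F, hF, hF'⟩ := h
  have hG : F * ∏ q : Fin n × Fin 2, (MvPolynomial.X q : MvPolynomial (Fin n × Fin 2) ℚ) ≠ 0 :=
    mul_ne_zero hF (Finset.prod_ne_zero_iff.2 fun q _ => MvPolynomial.X_ne_zero q)
  obtain ⟨v, hv⟩ : ∃ v : Fin n × Fin 2 → ℚ, MvPolynomial.eval v
      (F * ∏ q : Fin n × Fin 2, (MvPolynomial.X q : MvPolynomial (Fin n × Fin 2) ℚ)) ≠ 0 := by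
    by_contra hcon
    push Not at hcon
    exact hG (MvPolynomial.funext fun v => by rw [hcon v, map_zero])
  rw [map_mul, map_prod] at hv
  have hv1 := left_ne_zero_of_mul hv
  have hv2 := right_ne_zero_of_mul hv
  rw [Finset.prod_ne_zero_iff] at hv2
  obtain ⟨P, hPdef⟩ : ∃ P : Fin n → Fin 2 → ℚ, ∀ i j, P i j = v (i, j) := ⟨fun i j => v (i, j), fun _ _ => rfl⟩
  have hP0 : ∀ i j, P i j ≠ 0 := by
    intro i j
    rw [hPdef]
    simpa using hv2 (i, j) (mem_univ _)
  have hPv : (fun ij : Fin n × Fin 2 => P ij.1 ij.2) = v := funext fun ij => hPdef _ _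
  have h1 := hF' P (by rw [hPv, MvPolynomial.aeval_eq_eval]; exact hv1)
  have h2 := finrank_VS_le hP0 h1
  have h3 := Pool.Agent.TH772.QB.Emp_of_finrank (fun i => hP0 i 0) (fun i => hP0 i 1) (TZ_finite d) h2
  refine ⟨fun hle => ?_, fun hle => Pool.Agent.TH641.UM.Sur_of_ones h3 (by omega)⟩
  obtain ⟨K, _, _, x, y, hx, hy, hf⟩ := h3
  refine ⟨K, inferInstance, inferInstance, fun i => x (Sum.inl i), fun i => y (Sum.inl i),
    fun i => hx _, fun i => hy _, fun f hfS hfL => hf f hfS ?_⟩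
  rintro (i | j)
  · exact hfL i
  · have := j.2
    omega

end Pool.Agent.TH545.SD
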